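import Mathlib

/-!
# Lower bound for the Riemann sums of a logarithmic kernel
-/

set_option autoImplicit false

namespace Pool.Agent.H643.HE

open MeasureTheory Set Filter Topology

noncomputable section

/-- logarithmic kernel, smoothed at `0` (the same as `Pool.Agent.H466.HE.kk`) -/
def kq (R ρ s : ℝ) : ℝ := max 0 (Real.log (R / (s + ρ)))

/-- the kernel in the plane -/
def KK (R ρ : ℝ) (p : ℝ × ℝ) : ℝ := kq R ρ (Real.sqrt (p.1 ^ 2 + p.2 ^ 2))

/-- the marginal -/
def gg (R ρ x : ℝ) : ℝ := ∫ s : ℝ, kq R ρ (Real.sqrt (x ^ 2 + s ^ 2))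

variable {R ρ : ℝ}

theorem kq_nonneg (R ρ s : ℝ) : 0 ≤ kq R ρ s := le_max_left _ _

theorem kq_anti (hρ : 0 < ρ) (hR : 0 < R) {s t : ℝ} (hs : 0 ≤ s) (hst : s ≤ t) :
    kq R ρ t ≤ kq R ρ s := by
  unfold kq
  have ht : 0 ≤ t := hs.trans hst
  refine max_le_max le_rfl (Real.log_le_log (by positivity) ?_)
  exact div_le_div_of_nonneg_left hR.le (by positivity) (by linarith)

theorem kq_zero (hρ : 0 < ρ) (hR : 0 < R) {s : ℝ} (hs : R ≤ s) : kq R ρ s = 0 := by
  unfold kq
  have hs0 : 0 < s := lt_of_lt_of_le hR hs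
  refine max_eq_left (Real.log_nonpos (by positivity) ?_)
  rw [div_le_one (by linarith)]; linarith

theorem KK_cont (hρ : 0 < ρ) (hR : 0 < R) : Continuous (KK R ρ) := by
  unfold KK kq
  refine continuous_const.max ?_
  refine Continuous.log ?_ ?_
  · refine continuous_const.div (by fun_prop) fun p => ?_
    have := Real.sqrt_nonneg (p.1 ^ 2 + p.2 ^ 2)
    positivity
  · intro p
    have := Real.sqrt_nonneg (p.1 ^ 2 + p.2 ^ 2)
    positivity

theorem KK_zero (hρ : 0 < ρ) (hR : 0 < R) {p : ℝ × ℝ} (h : R ≤ |p.1| ∨ R ≤ |p.2|) :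
    KK R ρ p = 0 := by
  refine kq_zero hρ hR ?_
  refine Real.le_sqrt_of_sq_le ?_
  rcases h with h | h
  · have := pow_le_pow_left₀ hR.le h 2
    rw [sq_abs] at this
    nlinarith [sq_nonneg p.2]
  · have := pow_le_pow_left₀ hR.le h 2
    rw [sq_abs] at this
    nlinarith [sq_nonneg p.1]

theorem KK_supp (hρ : 0 < ρ) (hR : 0 < R) : HasCompactSupport (KK R ρ) := by
  refine HasCompactSupport.intro (K := Icc (-R) R ×ˢ Icc (-R) R)
    (isCompact_Icc.prod isCompact_Icc) ?_
  intro p hp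
  refine KK_zero hρ hR ?_
  by_contra hcon
  push Not at hcon
  exact hp ⟨⟨(abs_lt.1 hcon.1).1.le, (abs_lt.1 hcon.1).2.le⟩,
    ⟨(abs_lt.1 hcon.2).1.le, (abs_lt.1 hcon.2).2.le⟩⟩

theorem KK_int (hρ : 0 < ρ) (hR : 0 < R) : Integrable (KK R ρ) (volume : Measure (ℝ × ℝ)) :=
  (KK_cont hρ hR).integrable_of_hasCompactSupport (KK_supp hρ hR)

theorem slice_int (hρ : 0 < ρ) (hR : 0 < R) (x : ℝ) :
    Integrable (fun s : ℝ => kq R ρ (Real.sqrt (x ^ 2 + s ^ 2))) := by
  refine Continuous.integrable_of_hasCompactSupport ?_ ?_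
  · exact (KK_cont hρ hR).comp (by fun_prop : Continuous fun s : ℝ => ((x, s) : ℝ × ℝ))
  · refine HasCompactSupport.intro (K := Icc (-R) R) isCompact_Icc ?_
    intro s hs
    refine KK_zero (p := (x, s)) hρ hR (Or.inr ?_)
    by_contra hcon
    push Not at hcon
    exact hs ⟨(abs_lt.1 hcon).1.le, (abs_lt.1 hcon).2.le⟩

theorem gg_anti (hρ : 0 < ρ) (hR : 0 < R) {x y : ℝ} (h : |x| ≤ |y|) : gg R ρ y ≤ gg R ρ x := by
  unfold gg
  refine integral_mono (slice_int hρ hR y) (slice_int hρ hR x) fun s => ?_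
  refine kq_anti hρ hR (Real.sqrt_nonneg _) (Real.sqrt_le_sqrt ?_)
  have := sq_le_sq.2 h
  linarith

theorem gg_zero (hρ : 0 < ρ) (hR : 0 < R) {x : ℝ} (h : R ≤ |x|) : gg R ρ x = 0 := by
  unfold gg
  have : (fun s : ℝ => kq R ρ (Real.sqrt (x ^ 2 + s ^ 2))) = fun _ => 0 := by
    funext s
    exact KK_zero (p := (x, s)) hρ hR (Or.inl h)
  rw [this, integral_zero]

theorem gg_nonneg (R ρ x : ℝ) : 0 ≤ gg R ρ x := integral_nonneg fun _ => kq_nonneg _ _ _

theorem gg_top (hρ : 0 < ρ) (hR : 0 < R) : gg R ρ 0 ≤ 2 * R := by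
  unfold gg
  have e1 : (fun s : ℝ => kq R ρ (Real.sqrt ((0 : ℝ) ^ 2 + s ^ 2))) = fun s => kq R ρ |s| := by
    funext s
    rw [zero_pow two_ne_zero, zero_add, Real.sqrt_sq_eq_abs]
  rw [e1, integral_comp_abs]
  refine mul_le_mul_of_nonneg_left ?_ (by norm_num)
  have e2 : ∫ s in Ioi (0 : ℝ), kq R ρ s = ∫ s in Ioc (0 : ℝ) R, kq R ρ s := by
    refine setIntegral_eq_of_subset_of_forall_sdiff_eq_zero measurableSet_Ioi Ioc_subset_Ioi_self ?_
    intro s hs
    have hs1 : 0 < s := hs.1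
    refine kq_zero hρ hR ?_
    by_contra hcon
    exact hs.2 ⟨hs1, (not_le.1 hcon).le⟩
  rw [e2]
  have e3 : ∫ s in Ioc (0 : ℝ) R, (Real.log R - Real.log s) = R := by
    rw [← intervalIntegral.integral_of_le hR.le, intervalIntegral.integral_sub
      intervalIntegrable_const intervalIntegral.intervalIntegrable_log', integral_log]
    simp
  refine le_trans ?_ e3.le
  refine setIntegral_mono_on ?_ ?_ measurableSet_Ioc ?_
  · refine (ContinuousOn.integrableOn_Icc ?_).mono_set Ioc_subset_Icc_self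
    unfold kq
    refine continuousOn_const.sup ?_
    refine ContinuousOn.log ?_ ?_
    · refine continuousOn_const.div (by fun_prop) fun s hs => ?_
      have := hs.1
      positivity
    · intro s hs
      have := hs.1
      positivity
  · rw [← intervalIntegrable_iff_integrableOn_Ioc_of_le hR.le]
    exact intervalIntegrable_const.sub intervalIntegral.intervalIntegrable_log'
  · intro s hs
    have hs0 : 0 < s := hs.1
    rw [← Real.log_div hR.ne' hs0.ne']
    unfold kq
    refine max_le (Real.log_nonneg ?_) (Real.log_le_log (by positivity) ?_)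
    · rw [one_le_div hs0]; exact hs.2
    · exact div_le_div_of_nonneg_left hR.le hs0 (by linarith)

theorem gg_int (hρ : 0 < ρ) (hR : 0 < R) : Integrable (gg R ρ) := by
  have h := KK_int hρ hR
  rw [Measure.volume_eq_prod] at h
  exact h.integral_prod_left

theorem integral_gg (hρ : 0 < ρ) (hR : 0 < R) :
    ∫ x, gg R ρ x = (∫ r in Ioi (0 : ℝ), r * kq R ρ r) * (2 * Real.pi) := by
  have h := KK_int hρ hR
  have e1 : ∫ x, gg R ρ x = ∫ p, KK R ρ p := by
    rw [Measure.volume_eq_prod] at h ⊢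
    rw [integral_prod _ h]
    rfl
  rw [e1, ← integral_comp_polarCoord_symm]
  have e2 : ∀ p ∈ polarCoord.target, p.1 • KK R ρ (polarCoord.symm p) =
      (p.1 * kq R ρ p.1) * (fun _ : ℝ => (1 : ℝ)) p.2 := by
    intro p hp
    have hp1 : 0 < p.1 := hp.1
    rw [smul_eq_mul, mul_one]
    congr 1
    unfold KK
    congr 1
    rw [polarCoord_symm_apply]
    have : (p.1 * Real.cos p.2) ^ 2 + (p.1 * Real.sin p.2) ^ 2 = p.1 ^ 2 := by
      have := Real.cos_sq_add_sin_sq p.2
      linear_combination p.1 ^ 2 * this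
    rw [this, Real.sqrt_sq hp1.le]
  rw [setIntegral_congr_fun polarCoord.open_target.measurableSet e2]
  have e3 : polarCoord.target = Ioi (0 : ℝ) ×ˢ Ioo (-Real.pi) Real.pi := rfl
  rw [e3, Measure.volume_eq_prod,
    setIntegral_prod_mul (fun r => r * kq R ρ r) (fun _ : ℝ => (1 : ℝ))]
  congr 1
  have hpi := Real.pi_pos
  simp
  rw [max_eq_left (by linarith)]
  ring

theorem radial (hρ : 0 < ρ) (hR : 0 < R) :
    R ^ 2 / 4 - ρ * R ≤ ∫ r in Ioi (0 : ℝ), r * kq R ρ r := by
  have e2 : ∫ s in Ioi (0 : ℝ), s * kq R ρ s = ∫ s in Ioc (0 : ℝ) R, s * kq R ρ s := by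
    refine setIntegral_eq_of_subset_of_forall_sdiff_eq_zero measurableSet_Ioi Ioc_subset_Ioi_self ?_
    intro s hs
    have hs1 : 0 < s := hs.1
    have : kq R ρ s = 0 := by
      refine kq_zero hρ hR ?_
      by_contra hcon
      exact hs.2 ⟨hs1, (not_le.1 hcon).le⟩
    rw [this, mul_zero]
  rw [e2]
  have hF : ∫ s in (0 : ℝ)..R, (s * Real.log R - s * Real.log s - ρ) = R ^ 2 / 4 - ρ * R := by
    have := intervalIntegral.integral_eq_sub_of_hasDerivAt_of_le hR.le
      (f := fun s : ℝ => s ^ 2 / 2 * Real.log R - s * (s * Real.log s) / 2 + s ^ 2 / 4 - ρ * s)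
      (f' := fun s : ℝ => s * Real.log R - s * Real.log s - ρ) ?_ ?_ ?_
    · rw [this]; ring
    · have := Real.continuous_mul_log
      refine Continuous.continuousOn ?_
      fun_prop
    · intro s hs
      have hs0 : s ≠ 0 := hs.1.ne'
      have h1 := Real.hasDerivAt_mul_log hs0
      have h2 := (((hasDerivAt_pow 2 s).div_const 2).mul_const (Real.log R)).sub
        (((hasDerivAt_id s).mul h1).div_const 2) |>.add ((hasDerivAt_pow 2 s).div_const 4)
        |>.sub ((hasDerivAt_id s).const_mul ρ)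
      refine h2.congr_deriv ?_
      simp only [id]
      ring
    · have := Real.continuous_mul_log
      refine Continuous.intervalIntegrable ?_ _ _
      fun_prop
  rw [← hF, intervalIntegral.integral_of_le hR.le]
  refine setIntegral_mono_on ?_ ?_ measurableSet_Ioc ?_
  · refine (ContinuousOn.integrableOn_Icc ?_).mono_set Ioc_subset_Icc_self
    have := Real.continuous_mul_log
    refine Continuous.continuousOn ?_
    fun_prop
  · refine (ContinuousOn.integrableOn_Icc ?_).mono_set Ioc_subset_Icc_self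
    refine continuousOn_id.mul ?_
    unfold kq
    refine continuousOn_const.sup ?_
    refine ContinuousOn.log ?_ ?_
    · refine continuousOn_const.div (by fun_prop) fun s hs => ?_
      have := hs.1
      positivity
    · intro s hs
      have := hs.1
      positivity
  · intro s hs
    have hs0 : 0 < s := hs.1
    have h1 : Real.log R - Real.log s - ρ / s ≤ kq R ρ s := by
      refine le_trans ?_ (le_max_right _ _)
      rw [Real.log_div hR.ne' (by positivity)]
      have h2 : Real.log (s + ρ) = Real.log s + Real.log (1 + ρ / s) := by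
        rw [← Real.log_mul hs0.ne' (by positivity)]
        congr 1
        field_simp
      have h3 := Real.log_le_sub_one_of_pos (show 0 < 1 + ρ / s by positivity)
      linarith
    have h4 := mul_le_mul_of_nonneg_left h1 hs0.le
    have h5 : s * (Real.log R - Real.log s - ρ / s) = s * Real.log R - s * Real.log s - ρ := by
      field_simp
    linarith

theorem integral_gg_ge (hρ : 0 < ρ) (hR : 0 < R) :
    Real.pi / 2 * R ^ 2 - 2 * Real.pi * (ρ * R) ≤ ∫ x, gg R ρ x := by
  rw [integral_gg hρ hR]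
  have h := mul_le_mul_of_nonneg_right (radial hρ hR) (show 0 ≤ 2 * Real.pi by positivity)
  linarith

theorem riemann (hρ : 0 < ρ) (hR : 0 < R) {σ x : ℝ} {N : ℕ} (hσ : 0 < σ) (hx : R ≤ x)
    (hN : x + R ≤ σ * N) :
    ∫ y, gg R ρ y ≤ σ * (∑ i ∈ Finset.range (N + 1), gg R ρ (x - σ * i) + gg R ρ 0) := by
  have hint := gg_int hρ hR
  -- the integral over the grid
  have e1 : ∫ y, gg R ρ y = σ * ∫ u in (0 : ℝ)..N, gg R ρ (x - σ * u) := by
    have e2 : ∫ y, gg R ρ y = ∫ y in (x - σ * N)..(x - σ * 0), gg R ρ y := by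
      rw [intervalIntegral.integral_of_le (by rw [mul_zero]; have := hσ.le; nlinarith [Nat.cast_nonneg (α := ℝ) N])]
      symm
      refine setIntegral_eq_integral_of_forall_compl_eq_zero ?_
      intro y hy
      refine gg_zero hρ hR ?_
      by_contra hcon
      rw [not_le, abs_lt] at hcon
      exact hy ⟨by linarith, by linarith⟩
    have e3 := intervalIntegral.integral_comp_sub_mul (a := 0) (b := (N : ℝ))
      (fun y => gg R ρ y) hσ.ne' x
    rw [smul_eq_mul] at e3
    rw [e2, e3, ← mul_assoc, mul_inv_cancel₀ hσ.ne', one_mul]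
  rw [e1]
  refine mul_le_mul_of_nonneg_left ?_ hσ.le
  set F : ℝ → ℝ := fun u => gg R ρ (x - σ * u) with hF
  have hFint : ∀ a b : ℝ, IntervalIntegrable F volume a b := by
    intro a b
    have : Integrable F := by
      have := hint.comp_sub_left x |>.comp_mul_left' hσ.ne'
      exact this
    exact this.intervalIntegrable
  set i0 : ℕ := ⌊x / σ⌋₊ with hi0
  have hx0 : 0 ≤ x := by linarith
  have h1 : (i0 : ℝ) * σ ≤ x := by
    have := Nat.floor_le (show 0 ≤ x / σ by positivity)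
    rwa [le_div_iff₀ hσ] at this
  have h2 : x < ((i0 : ℝ) + 1) * σ := by
    have := Nat.lt_floor_add_one (x / σ)
    rwa [div_lt_iff₀ hσ] at this
  have h3 : i0 + 1 ≤ N := by
    have : (i0 : ℝ) < N := by
      have : (i0 : ℝ) * σ < N * σ := by linarith
      exact lt_of_mul_lt_mul_right this hσ.le
    exact_mod_cast this
  obtain ⟨M, rfl⟩ := Nat.exists_eq_add_of_le h3
  -- the left part
  have hL : ∫ u in (0 : ℝ)..(i0 : ℝ), F u ≤ ∑ i ∈ Finset.range i0, F ((i + 1 : ℕ) : ℝ) := by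
    have hm : MonotoneOn F (Icc 0 (0 + (i0 : ℝ))) := by
      intro a ha b hb hab
      refine gg_anti hρ hR ?_
      rw [zero_add] at ha hb
      have hbx : σ * b ≤ x := by nlinarith [hb.2]
      have hax : σ * a ≤ σ * b := mul_le_mul_of_nonneg_left hab hσ.le
      rw [abs_of_nonneg (by linarith), abs_of_nonneg (by linarith)]
      linarith
    have := hm.integral_le_sum
    simpa using this
  -- the middle part
  have hMd : ∫ u in (i0 : ℝ)..((i0 : ℝ) + 1), F u ≤ gg R ρ 0 := by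
    have h4 : ∫ u in (i0 : ℝ)..((i0 : ℝ) + 1), F u ≤ ∫ u in (i0 : ℝ)..((i0 : ℝ) + 1), gg R ρ 0 := by
      refine intervalIntegral.integral_mono_on (by linarith) (hFint _ _) intervalIntegrable_const ?_
      intro u _
      exact gg_anti hρ hR (by simp)
    simpa using h4
  -- the right part
  have hRt : ∫ u in ((i0 : ℝ) + 1)..((i0 : ℝ) + 1 + M), F u ≤
      ∑ i ∈ Finset.range M, F ((i0 : ℝ) + 1 + i) := by
    have hm : AntitoneOn F (Icc ((i0 : ℝ) + 1) ((i0 : ℝ) + 1 + (M : ℕ))) := by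
      intro a ha b hb hab
      refine gg_anti hρ hR ?_
      have hax : x ≤ σ * a := by nlinarith [ha.1]
      have hbx : σ * a ≤ σ * b := mul_le_mul_of_nonneg_left hab hσ.le
      rw [abs_of_nonpos (by linarith), abs_of_nonpos (by linarith)]
      linarith
    exact hm.integral_le_sum
  have hsum : ∑ i ∈ Finset.range (i0 + 1 + M + 1), F (i : ℝ) =
      F 0 + ∑ i ∈ Finset.range i0, F ((i + 1 : ℕ) : ℝ) + ∑ i ∈ Finset.range M, F ((i0 : ℝ) + 1 + i) +
        F ((i0 : ℝ) + 1 + M) := by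
    rw [Finset.sum_range_succ, Finset.sum_range_add, Finset.sum_range_succ']
    push_cast
    ring
  have hsplit : ∫ u in (0 : ℝ)..((i0 + 1 + M : ℕ) : ℝ), F u =
      (∫ u in (0 : ℝ)..(i0 : ℝ), F u) + (∫ u in (i0 : ℝ)..((i0 : ℝ) + 1), F u) +
        ∫ u in ((i0 : ℝ) + 1)..((i0 : ℝ) + 1 + M), F u := by
    rw [intervalIntegral.integral_add_adjacent_intervals (hFint _ _) (hFint _ _),
      intervalIntegral.integral_add_adjacent_intervals (hFint _ _) (hFint _ _)]
    push_cast
    rfl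
  have hp1 : 0 ≤ F 0 := gg_nonneg _ _ _
  have hp2 : 0 ≤ F ((i0 : ℝ) + 1 + M) := gg_nonneg _ _ _
  change ∫ u in (0 : ℝ)..((i0 + 1 + M : ℕ) : ℝ), F u ≤
    ∑ i ∈ Finset.range (i0 + 1 + M + 1), F (i : ℝ) + gg R ρ 0
  rw [hsplit, hsum]
  linarith

theorem core : ∃ C : ℝ, 0 < C ∧ ∀ (ρ R σ x : ℝ) (N : ℕ), 0 < ρ → ρ ≤ R → R ≤ 1 → 0 < σ →
    σ ≤ R → R ≤ x → x + R ≤ σ * N →
    (Real.pi / 2 * R ^ 2 - C * (R * (ρ + σ))) / σ ≤
      ∑ i ∈ Finset.range (N + 1), ∫ s : ℝ, kq R ρ (Real.sqrt ((x - σ * i) ^ 2 + s ^ 2)) := by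
  refine ⟨2 * Real.pi + 2, by positivity, ?_⟩
  intro ρ R σ x N hρ hρR _ hσ _ hx hN
  have hR : 0 < R := lt_of_lt_of_le hρ hρR
  have h1 := integral_gg_ge hρ hR
  have h2 := riemann hρ hR hσ hx hN
  have h3 := gg_top hρ hR
  have hpi := Real.pi_pos
  rw [div_le_iff₀ hσ]
  change _ ≤ (∑ i ∈ Finset.range (N + 1), gg R ρ (x - σ * i)) * σ
  have h4 : σ * gg R ρ 0 ≤ σ * (2 * R) := mul_le_mul_of_nonneg_left h3 hσ.le
  have h5 : 0 ≤ Real.pi * (R * σ) := by positivity
  have h6 : 0 ≤ R * ρ := by positivity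
  nlinarith

end

end Pool.Agent.H643.HE
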