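import Pool.Agent.H466.HE.SA
import Pool.Agent.H643.HE.KSCore

/-!
# KS: lower bound for the Riemann sums of the logarithmic kernel
-/

set_option autoImplicit false

namespace Pool.Agent.H643.HE

open Pool.Agent.H466.HE (S_KS)

theorem ks : S_KS := core

end Pool.Agent.H643.HE
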